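import Mathlib

/-!
# Fourier inversion, the other direction
-/

set_option autoImplicit false

open MeasureTheory Complex FourierTransform

namespace Pool.Agent.Helper88.QL

theorem inv_line {f h : ℝ → ℂ} (hf : Integrable f) (_hfc : Continuous f) (hh : Integrable h)
    (hhc : Continuous h)
    (hrep : ∀ v : ℝ, f v = ((1 / (2 * Real.pi) : ℝ) : ℂ) * ∫ y : ℝ, h y * Complex.exp (Complex.I * y * v))
    (y : ℝ) : ∫ v : ℝ, f v * Complex.exp (-(Complex.I * y * v)) = h y := by
  have hpi : (2 * Real.pi) ≠ 0 := by positivity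
  have hpi' : ((2 * Real.pi : ℝ) : ℂ) ≠ 0 := by exact_mod_cast hpi
  have hI : ∀ w : ℝ, 𝓕⁻ h w = ((2 * Real.pi : ℝ) : ℂ) * f (2 * Real.pi * w) := by
    intro w
    rw [Real.fourierInv_eq', hrep, ← mul_assoc, ← Complex.ofReal_mul,
      mul_one_div_cancel hpi, Complex.ofReal_one, one_mul]
    refine integral_congr_ae (Filter.Eventually.of_forall fun v => ?_)
    simp only [smul_eq_mul]
    rw [mul_comm]
    congr 2
    simp
    ring
  have hIi : Integrable (𝓕⁻ h) := by
    have h1 : Integrable (fun w : ℝ => ((2 * Real.pi : ℝ) : ℂ) * f (2 * Real.pi * w)) :=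
      (hf.comp_mul_left' hpi).const_mul _
    exact h1.congr (Filter.Eventually.of_forall fun w => (hI w).symm)
  have hFi : Integrable (𝓕 h) := by
    refine hIi.comp_neg.congr (Filter.Eventually.of_forall fun w => ?_)
    simp only
    rw [Real.fourierInv_eq_fourier_neg, neg_neg]
  have h1 : 𝓕 (𝓕⁻ h) y = h y := by
    rw [hhc.fourier_fourierInv_eq hh hFi]
  rw [← h1, Real.fourier_eq']
  have h2 : ∀ v : ℝ, Complex.exp (↑(-2 * Real.pi * inner ℝ v y) * I) • 𝓕⁻ h v =
      (fun u : ℝ => ((2 * Real.pi : ℝ) : ℂ) * (f u * Complex.exp (-(Complex.I * y * u)))) (2 * Real.pi * v) := by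
    intro v
    simp only [smul_eq_mul]
    rw [hI v, mul_left_comm, mul_comm (Complex.exp _)]
    congr 3
    simp
    ring
  simp_rw [h2]
  rw [Measure.integral_comp_mul_left (fun u : ℝ => ((2 * Real.pi : ℝ) : ℂ) * (f u * Complex.exp (-(Complex.I * y * u))))]
  rw [integral_const_mul, abs_of_pos (by positivity)]
  rw [Complex.real_smul, ← mul_assoc, ← Complex.ofReal_mul, inv_mul_cancel₀ hpi]
  simp

end Pool.Agent.Helper88.QL
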